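import Pool.Agent.TH486.LAC.Final

set_option autoImplicit false

/-!
# Linear arboricity of the Cayley graphs of elementary abelian groups and of their lifts

`H931R3.LA.la G` is the linear arboricity (the same expression as in the frozen statement S07085).
-/

namespace Pool.Agent.Results.MP_0a041d_co.ElementaryAbelian

open SimpleGraph H931R3.LA Pool.Agent.W111.LAR Pool.Agent.TH486.LAC

/-- The linear arboricity conjecture holds for every Cayley graph `X` of `(ℤ/p)ⁿ`, for every prime
`p ≥ 5` and every `n`, and for every finite covering graph of `X`. More generally, a finite graph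
with a locally injective homomorphism `f` to `X` has linear arboricity at most `|S| / 2 + 1`. -/
theorem result :
    ∀ (p n : ℕ) [Fact p.Prime], 5 ≤ p →
      ∀ (S : Set (Fin n → ZMod p)) (X : SimpleGraph (Fin n → ZMod p)),
        (∀ v w, X.Adj v w ↔ w - v ∈ S) → S.Nonempty →
        (∀ v, (X.neighborSet v).ncard = S.ncard) ∧
        ∀ (W : Type) [Finite W] [Nonempty W] (G : SimpleGraph W) (f : W → (Fin n → ZMod p)),
          (∀ a b, G.Adj a b → X.Adj (f a) (f b)) →
          (∀ a b c, G.Adj a b → G.Adj a c → f b = f c → b = c) →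
          la G ≤ (S.ncard + 2) / 2 ∧
            ((∀ a, (G.neighborSet a).ncard = S.ncard) → la G = (S.ncard + 2) / 2) := by
  intro p n _ hp S0 X hX hne
  classical
  have hfin : S0.Finite := Set.toFinite S0
  obtain ⟨S, rfl⟩ := hfin.exists_finset_coe
  rw [Set.ncard_coe_finset]
  have hS : S.Nonempty := by exact_mod_cast hne
  have hX' : ∀ v w, X.Adj v w ↔ w - v ∈ S := by
    intro v w
    rw [hX, Finset.mem_coe]
  have h0 : (0 : Fin n → ZMod p) ∉ S := by
    intro h
    have h1 : X.Adj 0 0 := (hX' 0 0).2 (by rwa [sub_zero])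
    exact X.irrefl h1
  have hneg : ∀ x ∈ S, -x ∈ S := by
    intro x hx
    have h1 : X.Adj 0 x := (hX' 0 x).2 (by rwa [sub_zero])
    have h2 := (hX' x 0).1 h1.symm
    rwa [zero_sub] at h2
  refine ⟨cay_deg_add S X hX', ?_⟩
  intro W _ _ G f hom inj
  have h1 := (ld_all (p := p) hp S hS h0 hneg X hX').lift G f hom inj
  have h2 : (S.card + 2) / 2 = S.card / 2 + 1 := by omega
  rw [← h2] at h1
  exact ⟨la_le h1, fun hreg => la_eq_of_cov hS.card_pos hreg h1⟩

end Pool.Agent.Results.MP_0a041d_co.ElementaryAbelian
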