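import Pool.Agent.TH702.LLG.Line

set_option autoImplicit false

/-!
# The linear arboricity conjecture for line graphs of regular graphs

`H931R3.LA.la G` is the linear arboricity (the same expression as in the frozen statement S07085)
and `H.lineGraph` is the line graph of `H` (Mathlib).
-/

namespace Pool.Agent.Results.MP_0a041d_co.LineGraphs

open SimpleGraph H931R3.LA Pool.Agent.TH702.LLG

theorem bound {U : Type} [Finite U] (H : SimpleGraph U) (d : ℕ)
    (hdeg : ∀ v, (H.neighborSet v).ncard ≤ d)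
    (h : Even d ∨ ∃ M : H.Subgraph, M.IsMatching ∧ ∀ v, (H.neighborSet v).ncard = d → v ∈ M.verts) :
    la H.lineGraph ≤ d := by
  rcases Nat.even_or_odd d with he | ho
  · obtain ⟨k, hk⟩ := he
    have h2 : d = 2 * k := by omega
    subst h2
    exact la_le (line_even H k hdeg)
  · obtain ⟨k, hk⟩ := ho
    subst hk
    rcases h with h | ⟨M, hM, hcov⟩
    · obtain ⟨r, hr⟩ := h
      omega
    · refine la_le (line_odd H M.spanningCoe k ?_ ?_ hdeg ?_)
      · intro u v huv
        exact M.adj_sub huv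
      · intro u v w huv huw
        have h1 : M.Adj u v := huv
        have h2 : M.Adj u w := huw
        exact (hM (M.edge_vert h1)).unique h1 h2
      · intro v hv
        obtain ⟨w, hw, _⟩ := hM (hcov v hv)
        exact ⟨w, hw⟩

theorem regular {U : Type} [Finite U] [Nonempty U] (H : SimpleGraph U) (d : ℕ) (hd : 2 ≤ d)
    (hdeg : ∀ v, (H.neighborSet v).ncard = d)
    (h : Even d ∨ ∃ M : H.Subgraph, M.IsPerfectMatching) :
    (∀ e, (H.lineGraph.neighborSet e).ncard = 2 * (d - 1)) ∧
      la H.lineGraph = (2 * (d - 1) + 2) / 2 := by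
  have h1 := line_degree H d hdeg
  refine ⟨h1, le_antisymm ?_ ?_⟩
  · refine (bound H d (fun v => (hdeg v).le) ?_).trans (by omega)
    rcases h with h | ⟨M, hM⟩
    · exact Or.inl h
    · exact Or.inr ⟨M, hM.1, fun v _ => hM.2 v⟩
  · obtain ⟨u⟩ := ‹Nonempty U›
    have h2 : (H.neighborSet u).Nonempty := by
      rw [← Set.ncard_pos (Set.toFinite _), hdeg u]
      omega
    obtain ⟨v, hv⟩ := h2
    have : Nonempty H.edgeSet := ⟨⟨s(u, v), hv⟩⟩
    exact lower (by omega) (cov_la _) h1

/-- **Linear arboricity of line graphs.**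

(a) If the vertices of `G` are divided into `m` classes such that every vertex has at most four
neighbours in every other class and at most two in its own class, then `la G ≤ 2 m`; if moreover
`G` is `(4 m - 2)`-regular then `la G = ⌈(r + 1) / 2⌉` with `r = 4 m - 2`.
(b) If all degrees of `H` are at most `d`, and `d` is even or `H` has a matching covering all
vertices of degree `d`, then the line graph of `H` satisfies `la (L(H)) ≤ d`.
(c) If `H` is `d`-regular, `d ≥ 2`, and `d` is even or `H` has a perfect matching, then `L(H)` is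
`r`-regular with `r = 2 (d - 1)` and `la (L(H)) = ⌈(r + 1) / 2⌉`.
(d) For every `d`-regular graph `H`, `d ≥ 2`, the graph `L(L(H))` is `r`-regular with
`r = 2 (2 (d - 1) - 1)` and `la (L(L(H))) = ⌈(r + 1) / 2⌉`. -/
theorem result :
    (∀ (V : Type) [Finite V] (G : SimpleGraph V) (m : ℕ) (f : V → ℕ), (∀ v, f v < m) →
      (∀ u j, j ≠ f u → {v | G.Adj u v ∧ f v = j}.ncard ≤ 4) →
      (∀ u, {v | G.Adj u v ∧ f v = f u}.ncard ≤ 2) →
      la G ≤ 2 * m ∧
      (Nonempty V → (∀ v, (G.neighborSet v).ncard = 4 * m - 2) →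
        la G = ((4 * m - 2) + 2) / 2)) ∧
    (∀ (U : Type) [Finite U] (H : SimpleGraph U) (d : ℕ), (∀ v, (H.neighborSet v).ncard ≤ d) →
      (Even d ∨ ∃ M : H.Subgraph, M.IsMatching ∧
        ∀ v, (H.neighborSet v).ncard = d → v ∈ M.verts) → la H.lineGraph ≤ d) ∧
    (∀ (U : Type) [Finite U] [Nonempty U] (H : SimpleGraph U) (d : ℕ), 2 ≤ d →
      (∀ v, (H.neighborSet v).ncard = d) → (Even d ∨ ∃ M : H.Subgraph, M.IsPerfectMatching) →
      (∀ e, (H.lineGraph.neighborSet e).ncard = 2 * (d - 1)) ∧
        la H.lineGraph = (2 * (d - 1) + 2) / 2) ∧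
    (∀ (U : Type) [Finite U] [Nonempty U] (H : SimpleGraph U) (d : ℕ), 2 ≤ d →
      (∀ v, (H.neighborSet v).ncard = d) →
      (∀ e, (H.lineGraph.lineGraph.neighborSet e).ncard = 2 * (2 * (d - 1) - 1)) ∧
        la H.lineGraph.lineGraph = (2 * (2 * (d - 1) - 1) + 2) / 2) := by
  refine ⟨?_, ?_, ?_, ?_⟩
  · intro V _ G m f hf h4 h2
    have h1 : la G ≤ 2 * m := la_le (cov_even G m f hf h4 h2)
    refine ⟨h1, ?_⟩
    intro hne hreg
    obtain ⟨v⟩ := hne
    have hm : 1 ≤ m := by have := hf v; omega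
    have : Nonempty V := ⟨v⟩
    exact le_antisymm (h1.trans (by omega)) (lower (by omega) (cov_la G) hreg)
  · intro U _ H d hdeg h
    exact bound H d hdeg h
  · intro U _ _ H d hd hdeg h
    exact regular H d hd hdeg h
  · intro U _ _ H d hd hdeg
    have h1 := line_degree H d hdeg
    have hne : Nonempty H.edgeSet := by
      obtain ⟨u⟩ := ‹Nonempty U›
      have h2 : (H.neighborSet u).Nonempty := by
        rw [← Set.ncard_pos (Set.toFinite _), hdeg u]
        omega
      obtain ⟨v, hv⟩ := h2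
      exact ⟨⟨s(u, v), hv⟩⟩
    exact regular H.lineGraph (2 * (d - 1)) (by omega) h1 (Or.inl ⟨d - 1, by ring⟩)

end Pool.Agent.Results.MP_0a041d_co.LineGraphs
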