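import Pool.Agent.TH525.FRG.Basic
import Pool.Agent.TH525.FRG.Quot
import Pool.Agent.TH525.FRG.Dual
import Pool.Agent.TH525.LAD.Reg

set_option autoImplicit false

/-!
# Linear arboricity and quotients: dually chordal graphs, interval graphs, frugal colourings,
circular layouts

`H931R3.LA.la G` is the linear arboricity (the same expression as in the frozen statement S07085),
`H931R3.LA.IsLF F` says that `F` is a linear forest.
`MaxNbOrder G ρ` says that `ρ` is a maximum neighbourhood ordering of `G`; the graphs that have one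
are the dually chordal graphs.
-/

namespace Pool.Agent.Results.MP_0a041d_co.QuotientForests

open SimpleGraph H931R3.LA Pool.Agent.TH525.FRG

/-- **Linear arboricity and quotients.**

(a) If `F c`, `c < k`, are linear forests on `W` and `f : V → W` is such that every vertex `u` has
at most as many neighbours in each class `f ⁻¹ j` as there are forests containing the edge
`{f u, j}`, then `la G ≤ k`.
(b) `la G ≤ la H` if there is a locally injective homomorphism from `G` to `H`; if both graphs are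
`r`-regular and `la H = ⌈(r + 1) / 2⌉` then `la G = ⌈(r + 1) / 2⌉`.
(c) If `G` has a proper colouring with `m` colours such that every vertex has at most `β`
neighbours of each colour, then `la G ≤ ⌈β m / 2⌉`; if `G` is `r`-regular and `β = 2`,
`r = 2 (m - 1)`, then `la G = ⌈(r + 1) / 2⌉`.
(d) If the vertices are labelled by `ℤ/m` so that edges join consecutive classes and every vertex
has at most `β` neighbours in the next and at most `β` in the previous class, then
`la G ≤ β + ⌈β / (m - 1)⌉`; if `G` is `2 β`-regular and `m ≥ β + 1` then `la G = β + 1`.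
(e) Every graph of maximum degree at most `r` with a maximum neighbourhood ordering satisfies
`la G ≤ ⌈(r + 1) / 2⌉`, with equality `la G = ⌈r / 2⌉` if the maximum degree `r` is odd.
(f) The same holds for every interval graph. -/
theorem result :
    (∀ (V W : Type) [Finite V] [Finite W] (G : SimpleGraph V) (k : ℕ) (F : Fin k → SimpleGraph W)
      (f : V → W), (∀ c, IsLF (F c)) →
      (∀ u j, {v | G.Adj u v ∧ f v = j}.ncard ≤ {c | (F c).Adj (f u) j}.ncard) → la G ≤ k) ∧
    (∀ (V W : Type) [Finite V] [Finite W] (G : SimpleGraph V) (H : SimpleGraph W) (h : V → W),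
      (∀ u v, G.Adj u v → H.Adj (h u) (h v)) →
      (∀ u v w, G.Adj u v → G.Adj u w → h v = h w → v = w) → la G ≤ la H ∧
      ∀ r : ℕ, Nonempty V → 0 < r → (∀ v, (G.neighborSet v).ncard = r) →
        la H = (r + 2) / 2 → la G = (r + 2) / 2) ∧
    (∀ (V : Type) [Finite V] (G : SimpleGraph V) (m β : ℕ) (f : V → ℕ), (∀ v, f v < m) →
      (∀ u v, G.Adj u v → f u ≠ f v) → (∀ u j, {v | G.Adj u v ∧ f v = j}.ncard ≤ β) →
      la G ≤ (β * m + 1) / 2 ∧
      (Nonempty V → β = 2 → 2 ≤ m → (∀ v, (G.neighborSet v).ncard = 2 * (m - 1)) →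
        la G = (2 * (m - 1) + 2) / 2)) ∧
    (∀ (V : Type) [Finite V] (G : SimpleGraph V) (m β t : ℕ) (f : V → ZMod m), 3 ≤ m →
      (∀ u v, G.Adj u v → f v = f u + 1 ∨ f u = f v + 1) →
      (∀ u, {v | G.Adj u v ∧ f v = f u + 1}.ncard ≤ β) →
      (∀ u, {v | G.Adj u v ∧ f u = f v + 1}.ncard ≤ β) → β ≤ t * (m - 1) →
      la G ≤ β + t ∧
      (Nonempty V → 0 < β → β + 1 ≤ m → (∀ v, (G.neighborSet v).ncard = 2 * β) →
        la G = β + 1)) ∧
    (∀ (V : Type) [Finite V] (G : SimpleGraph V) (r : ℕ) (ρ : V → ℕ), MaxNbOrder G ρ →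
      (∀ v, (G.neighborSet v).ncard ≤ r) → la G ≤ (r + 2) / 2 ∧
      (Odd r → (∃ v, (G.neighborSet v).ncard = r) → la G = (r + 1) / 2)) ∧
    (∀ (V : Type) [Finite V] (G : SimpleGraph V) (r : ℕ) (a b : V → ℝ), (∀ v, a v ≤ b v) →
      (∀ u v, G.Adj u v ↔ u ≠ v ∧ a u ≤ b v ∧ a v ≤ b u) →
      (∀ v, (G.neighborSet v).ncard ≤ r) → la G ≤ (r + 2) / 2 ∧
      (Odd r → (∃ v, (G.neighborSet v).ncard = r) → la G = (r + 1) / 2)) := by
  have hDual : ∀ (V : Type) [Finite V] (G : SimpleGraph V) (r : ℕ) (ρ : V → ℕ), MaxNbOrder G ρ →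
      (∀ v, (G.neighborSet v).ncard ≤ r) → la G ≤ (r + 2) / 2 ∧
      (Odd r → (∃ v, (G.neighborSet v).ncard = r) → la G = (r + 1) / 2) := by
    intro V _ G r ρ hρ hr
    obtain ⟨f, h1, h2, h3⟩ := square_col G r hr ρ hρ
    have h4 : la G ≤ (1 * (r + 1) + 1) / 2 := by
      refine la_le (cov_of_frugal G (r + 1) 1 f h1 h2 ?_)
      intro u j
      rw [Set.ncard_le_one (Set.toFinite _)]
      rintro x ⟨hx, hx'⟩ y ⟨hy, hy'⟩
      exact h3 x y u hx hy (by rw [hx', hy'])
    have h5 : la G ≤ (r + 2) / 2 := by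
      rw [one_mul] at h4; exact h4
    refine ⟨h5, ?_⟩
    rintro ⟨q, hq⟩ ⟨v, hv⟩
    have h6 := Pool.Agent.TH525.LAD.deg_le_of_cov (cov_la G) v
    omega
  refine ⟨?_, ?_, ?_, ?_, hDual, ?_⟩
  · intro V W _ _ G k F f hF h
    exact la_le (cov_quot G k F hF f h)
  · intro V W _ _ G H h h1 h2
    refine ⟨la_hom G H h h1 h2, ?_⟩
    intro r _ hr h3 h4
    exact le_antisymm ((la_hom G H h h1 h2).trans h4.le) (lower hr (cov_la G) h3)
  · intro V _ G m β f h1 h2 h3
    have h4 : la G ≤ (β * m + 1) / 2 := la_le (cov_of_frugal G m β f h1 h2 h3)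
    refine ⟨h4, ?_⟩
    rintro _ rfl hm h5
    refine le_antisymm (h4.trans (by omega)) (lower (by omega) (cov_la G) h5)
  · intro V _ G m β t f hm h1 h2 h3 ht
    refine ⟨la_le (cov_circular G m β t hm ht f h1 h2 h3), ?_⟩
    intro _ hβ hm' h5
    have h6 := la_le (cov_circular G m β 1 hm (by omega) f h1 h2 h3)
    have h7 := lower (by omega) (cov_la G) h5
    omega
  · intro V _ G r a b hab hG hr
    obtain ⟨ρ, hρ⟩ := interval_order G a b hab hG
    exact hDual V G r ρ hρ hr

end Pool.Agent.Results.MP_0a041d_co.QuotientForests
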